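import Pool.Agent.helper96.LK.SpecH

/-! # `INJ`: the main independence statement from the class patterns -/

open Finset Filter Polynomial

namespace Pool.Agent.LK

theorem INJ_sum (U : Finset (Pt × Pt)) (L : Finset Pt) (P : Pt) (hL : ∀ o, (P, o) ∈ U ↔ o ∈ L)
    (h : Pt → ℤ) (e : ℤ) (g : Pt × Pt → ℂ) :
    ∑ u ∈ U, (if ((u.1, h u.2) : Pt × ℤ) = (P, e) then g u else 0) =
      ∑ o ∈ L with h o = e, g (P, o) := by
  rw [← Finset.sum_filter]
  refine Finset.sum_nbij' (fun u => u.2) (fun o => (P, o)) ?_ ?_ ?_ ?_ ?_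
  · intro u hu
    obtain ⟨hu1, hu2⟩ := Finset.mem_filter.1 hu
    obtain ⟨h1, h2⟩ := Prod.mk.injEq _ _ _ _ ▸ hu2
    refine Finset.mem_filter.2 ⟨(hL _).1 ?_, h2⟩
    rw [← h1]
    exact hu1
  · intro o ho
    obtain ⟨h1, h2⟩ := Finset.mem_filter.1 ho
    exact Finset.mem_filter.2 ⟨(hL o).2 h1, by simp [h2]⟩
  · intro u hu
    obtain ⟨hu1, hu2⟩ := Finset.mem_filter.1 hu
    obtain ⟨h1, h2⟩ := Prod.mk.injEq _ _ _ _ ▸ hu2
    exact Prod.ext h1.symm rfl
  · intro o ho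
    rfl
  · intro u hu
    obtain ⟨hu1, hu2⟩ := Finset.mem_filter.1 hu
    obtain ⟨h1, h2⟩ := Prod.mk.injEq _ _ _ _ ▸ hu2
    rw [← h1]

/-- the base point of an index -/
def INJ_b (a dl : ℤ) : {u // u ∈ UA a dl} ⊕ ({u // u ∈ UB a dl} ⊕ {u // u ∈ UB a dl}) → Pt
  | Sum.inl u => u.1.1
  | Sum.inr (Sum.inl u) => u.1.1
  | Sum.inr (Sum.inr u) => u.1.1

/-- the offset of an index -/
def INJ_o (a dl : ℤ) : {u // u ∈ UA a dl} ⊕ ({u // u ∈ UB a dl} ⊕ {u // u ∈ UB a dl}) → Pt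
  | Sum.inl u => u.1.2
  | Sum.inr (Sum.inl u) => (u.1.2.1, u.1.2.2 + 2)
  | Sum.inr (Sum.inr u) => (u.1.2.1 + 1, u.1.2.2)

/-- the coefficient of an index -/
noncomputable def INJ_p (a dl : ℤ) (A B : Pt × Pt → ℂ) :
    {u // u ∈ UA a dl} ⊕ ({u // u ∈ UB a dl} ⊕ {u // u ∈ UB a dl}) → Polynomial ℂ
  | Sum.inl u => C (A u.1) * X
  | Sum.inr (Sum.inl u) => C (B u.1)
  | Sum.inr (Sum.inr u) => C (-B u.1)

theorem INJ_mem (a dl : ℤ)
    (i : {u // u ∈ UA a dl} ⊕ ({u // u ∈ UB a dl} ⊕ {u // u ∈ UB a dl})) :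
    INJ_b a dl i ∈ BB a dl := by
  rcases i with u | u | u
  · exact (mem_UA.1 u.2).1
  · exact (mem_UB.1 u.2).1
  · exact (mem_UB.1 u.2).1

theorem INJ (hCLS : CLS_stmt) (hNI : NI_stmt) (hNS : NS_stmt) (hPS : PS_stmt) (hPT : PT_stmt)
    (hPU : PU_stmt) (hPW : PW_stmt) (hPV : PV_stmt) (hPQ : PQ_stmt) : INJ_stmt := by
  intro a dl ha h0 h1 A B hrel
  have ha2 : 2 ≤ a := by omega
  have key := hCLS _ (Pt × ℤ) (fun i => (INJ_b a dl i, (INJ_o a dl i).1 % 2))
    (fun i => xx a (shift a (INJ_b a dl i) (INJ_o a dl i)))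
    (fun i => yy a (shift a (INJ_b a dl i) (INJ_o a dl i)))
    (fun i z => (hNI a dl ha h0 h1 _ (INJ_mem a dl i) _ z).1)
    (fun i z => (hNI a dl ha h0 h1 _ (INJ_mem a dl i) _ z).2)
    (by
      intro i k hik
      obtain ⟨e1, e2⟩ := Prod.mk.injEq _ _ _ _ ▸ hik
      simp only [xx_shift ha2, yy_shift ha2]
      rw [e1]
      refine ⟨?_, ⟨(INJ_o a dl k).2 - (INJ_o a dl i).2, by push_cast; ring⟩⟩
      obtain ⟨m, hm⟩ : (2 : ℤ) ∣ (INJ_o a dl k).1 - (INJ_o a dl i).1 := by omega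
      refine ⟨m, ?_⟩
      have hm' : ((INJ_o a dl k).1 : ℚ) - (INJ_o a dl i).1 = 2 * m := by exact_mod_cast hm
      linear_combination hm' / 2)
    (by
      intro i k hik hs
      obtain ⟨e1, e2⟩ := hNS a dl ha h0 h1 _ (INJ_mem a dl i) _ (INJ_mem a dl k) _ _ hs
      apply hik
      rw [e1]
      congr 1
      omega)
    (INJ_p a dl A B)
    (by
      filter_upwards [hrel] with j hj
      rw [Fintype.sum_sum_type, Fintype.sum_sum_type]
      have t1 : ∑ u : {u // u ∈ UA a dl}, (INJ_p a dl A B (Sum.inl u)).eval (j : ℂ) *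
          ((ch (xx a (shift a (INJ_b a dl (Sum.inl u)) (INJ_o a dl (Sum.inl u)))) j *
            ch (yy a (shift a (INJ_b a dl (Sum.inl u)) (INJ_o a dl (Sum.inl u)))) j : ℚ) : ℂ) =
          ∑ u ∈ UA a dl, A u * ((j * sg a (shift a u.1 u.2) j : ℚ) : ℂ) := by
        rw [← Finset.sum_coe_sort (UA a dl)]
        refine Finset.sum_congr rfl fun u _ => ?_
        simp only [INJ_p, INJ_b, INJ_o, sg, eval_mul, eval_C, eval_X]
        push_cast
        ring
      have t2 : ∑ u : {u // u ∈ UB a dl}, (INJ_p a dl A B (Sum.inr (Sum.inl u))).eval (j : ℂ) *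
          ((ch (xx a (shift a (INJ_b a dl (Sum.inr (Sum.inl u)))
              (INJ_o a dl (Sum.inr (Sum.inl u))))) j *
            ch (yy a (shift a (INJ_b a dl (Sum.inr (Sum.inl u)))
              (INJ_o a dl (Sum.inr (Sum.inl u))))) j : ℚ) : ℂ) =
          ∑ u ∈ UB a dl, B u * ((sg a (shift a u.1 (u.2.1, u.2.2 + 2)) j : ℚ) : ℂ) := by
        rw [← Finset.sum_coe_sort (UB a dl)]
        refine Finset.sum_congr rfl fun u _ => ?_
        simp only [INJ_p, INJ_b, INJ_o, sg, eval_C]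
      have t3 : ∑ u : {u // u ∈ UB a dl}, (INJ_p a dl A B (Sum.inr (Sum.inr u))).eval (j : ℂ) *
          ((ch (xx a (shift a (INJ_b a dl (Sum.inr (Sum.inr u)))
              (INJ_o a dl (Sum.inr (Sum.inr u))))) j *
            ch (yy a (shift a (INJ_b a dl (Sum.inr (Sum.inr u)))
              (INJ_o a dl (Sum.inr (Sum.inr u))))) j : ℚ) : ℂ) =
          -∑ u ∈ UB a dl, B u * ((sg a (shift a u.1 (u.2.1 + 1, u.2.2)) j : ℚ) : ℂ) := by
        rw [← Finset.sum_neg_distrib, ← Finset.sum_coe_sort (UB a dl)]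
        refine Finset.sum_congr rfl fun u _ => ?_
        simp only [INJ_p, INJ_b, INJ_o, sg, eval_C]
        ring
      rw [t1, t2, t3, ← hj, add_right_inj, ← sub_eq_add_neg, ← Finset.sum_sub_distrib]
      refine Finset.sum_congr rfl fun u _ => ?_
      push_cast
      ring)
  have hR : ∀ P ∈ BB a dl, ∀ e : ℤ, ∀ᶠ j : ℕ in atTop,
      Rel a dl (fun o => A (P, o)) (fun o => B (P, o)) P e j = 0 := by
    intro P hP e
    filter_upwards [key (P, e)] with j hj
    rw [Finset.sum_filter, Fintype.sum_sum_type, Fintype.sum_sum_type] at hj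
    have s1 := INJ_sum (UA a dl) (LA a dl P) P (fun o => by rw [mem_UA]; exact and_iff_right hP)
      (fun o => o.1 % 2) e (fun u => A u * ((j * sg a (shift a u.1 u.2) j : ℚ) : ℂ))
    have s2 := INJ_sum (UB a dl) (LB a dl P) P (fun o => by rw [mem_UB]; exact and_iff_right hP)
      (fun o => o.1 % 2) e
      (fun u => B u * ((sg a (shift a u.1 (u.2.1, u.2.2 + 2)) j : ℚ) : ℂ))
    have s3 := INJ_sum (UB a dl) (LB a dl P) P (fun o => by rw [mem_UB]; exact and_iff_right hP)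
      (fun o => (o.1 + 1) % 2) e
      (fun u => B u * ((sg a (shift a u.1 (u.2.1 + 1, u.2.2)) j : ℚ) : ℂ))
    rw [Rel]
    rw [← Finset.sum_coe_sort] at s1 s2 s3
    have q1 := s1.symm
    have q2 := s2.symm
    have q3 := s3.symm
    rw [show (∑ o ∈ LA a dl P with o.1 % 2 = e,
        A (P, o) * ((j * sg a (shift a P o) j : ℚ) : ℂ)) = _ from q1,
      show (∑ o ∈ LB a dl P with o.1 % 2 = e,
        B (P, o) * ((sg a (shift a P (o.1, o.2 + 2)) j : ℚ) : ℂ)) = _ from q2,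
      show (∑ o ∈ LB a dl P with (o.1 + 1) % 2 = e,
        B (P, o) * ((sg a (shift a P (o.1 + 1, o.2)) j : ℚ) : ℂ)) = _ from q3,
      sub_eq_add_neg, ← Finset.sum_neg_distrib, add_assoc]
    refine Eq.trans ?_ hj
    congr 1
    · refine Finset.sum_congr rfl fun u _ => ?_
      simp only [INJ_p, INJ_b, INJ_o, sg, eval_mul, eval_C, eval_X]
      push_cast
      split_ifs
      · ring
      · rfl
    · congr 1
      · refine Finset.sum_congr rfl fun u _ => ?_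
        simp only [INJ_p, INJ_b, INJ_o, sg, eval_C]
      · refine Finset.sum_congr rfl fun u _ => ?_
        simp only [INJ_p, INJ_b, INJ_o, sg, eval_C]
        split_ifs
        · ring
        · simp
  have hV : ∀ P ∈ BB a dl, Van a dl (fun o => A (P, o)) (fun o => B (P, o)) P := by
    intro P hP
    have hRs : Rels a dl (fun o => A (P, o)) (fun o => B (P, o)) P := ⟨hR P hP 0, hR P hP 1⟩
    rcases (mem_BB ha h0 h1).1 hP with h | h | h | h | h | h
    · exact hPS a dl ha h0 h1 P hP h _ _ hRs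
    · exact hPT a dl ha h0 h1 P hP h _ _ hRs
    · exact hPU a dl ha h0 h1 P hP h _ _ hRs
    · exact hPW a dl ha h0 h1 P hP h _ _ hRs
    · exact hPV a dl ha h0 h1 P hP h _ _ hRs
    · exact hPQ a dl ha h0 h1 P hP h _ _ hRs
  constructor
  · intro u hu
    obtain ⟨hu1, hu2⟩ := mem_UA.1 hu
    exact (hV u.1 hu1).1 u.2 hu2
  · intro u hu
    obtain ⟨hu1, hu2⟩ := mem_UB.1 hu
    exact (hV u.1 hu1).2 u.2 hu2

end Pool.Agent.LK
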