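import Pool.Agent.helper96.LK.SpecM

/-! # `Z2`: independence at a real point of the deformation -/

open PowerSeries Filter

noncomputable section

namespace Pool.Agent.LK

open Pool.Agent.helper59.LC Pool.Agent.helper59.LD

theorem Z2_real (P : Polynomial ℂ) (hP : P ≠ 0) : ∃ t : ℝ, P.eval (t : ℂ) ≠ 0 := by
  by_contra h
  push Not at h
  apply hP
  apply Polynomial.eq_zero_of_infinite_isRoot
  refine (Set.infinite_range_of_injective Complex.ofReal_injective).mono ?_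
  rintro _ ⟨t, rfl⟩
  exact h t

theorem Z2_qc (q : ℚ) : qc ℂ q = (q : ℂ) := by
  simp [qc]

theorem Z2_cP (e : ℂ) : cP (gq e) = gq (starRingEnd ℂ e) := gq_map (starRingEnd ℂ) e

theorem Z2_miy (τ e f : ℂ) :
    miyS τ (gq e) (gq f) = gq ((e + f) / 2 + τ * ((e - f) / (2 * Complex.I))) := by
  rw [miyS, gq, gq, gq]
  simp only [Z2_qc]
  have h1 : (Polynomial.C (1 / 2 : ℂ)) * (Polynomial.C (((3 / 2 : ℚ) : ℂ) - ((1 / 2 : ℚ) : ℂ) * e) +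
      Polynomial.C (((1 / 2 : ℚ) : ℂ) - ((1 / 2 : ℚ) : ℂ) * e) * Polynomial.X +
      (Polynomial.C (((3 / 2 : ℚ) : ℂ) - ((1 / 2 : ℚ) : ℂ) * f) +
      Polynomial.C (((1 / 2 : ℚ) : ℂ) - ((1 / 2 : ℚ) : ℂ) * f) * Polynomial.X)) +
      Polynomial.C τ * (Polynomial.C (1 / (2 * Complex.I)) *
      (Polynomial.C (((3 / 2 : ℚ) : ℂ) - ((1 / 2 : ℚ) : ℂ) * e) +
      Polynomial.C (((1 / 2 : ℚ) : ℂ) - ((1 / 2 : ℚ) : ℂ) * e) * Polynomial.X -
      (Polynomial.C (((3 / 2 : ℚ) : ℂ) - ((1 / 2 : ℚ) : ℂ) * f) +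
      Polynomial.C (((1 / 2 : ℚ) : ℂ) - ((1 / 2 : ℚ) : ℂ) * f) * Polynomial.X))) =
      Polynomial.C (1 / 2 * ((((3 / 2 : ℚ) : ℂ) - ((1 / 2 : ℚ) : ℂ) * e) +
        (((3 / 2 : ℚ) : ℂ) - ((1 / 2 : ℚ) : ℂ) * f)) + τ * (1 / (2 * Complex.I) *
        ((((3 / 2 : ℚ) : ℂ) - ((1 / 2 : ℚ) : ℂ) * e) -
        (((3 / 2 : ℚ) : ℂ) - ((1 / 2 : ℚ) : ℂ) * f)))) +
      Polynomial.C (1 / 2 * ((((1 / 2 : ℚ) : ℂ) - ((1 / 2 : ℚ) : ℂ) * e) +
        (((1 / 2 : ℚ) : ℂ) - ((1 / 2 : ℚ) : ℂ) * f)) + τ * (1 / (2 * Complex.I) *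
        ((((1 / 2 : ℚ) : ℂ) - ((1 / 2 : ℚ) : ℂ) * e) -
        (((1 / 2 : ℚ) : ℂ) - ((1 / 2 : ℚ) : ℂ) * f)))) * Polynomial.X := by
    simp only [Polynomial.C_add, Polynomial.C_mul, Polynomial.C_sub]
    ring
  rw [h1]
  congr 2
  · push_cast
    ring
  · congr 1
    push_cast
    ring

theorem Z2_mix (τ : ℂ) (P : MvPolynomial (Fin 2) ℂ) : mixS τ P P = P := by
  rw [mixS, sub_self, mul_zero, mul_zero, add_zero, ← two_mul, ← mul_assoc]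
  have h : (MvPolynomial.C (1 / 2 : ℂ) : MvPolynomial (Fin 2) ℂ) * 2 = 1 := by
    rw [show (2 : MvPolynomial (Fin 2) ℂ) = MvPolynomial.C (2 : ℂ) from (map_ofNat _ 2).symm,
      ← map_mul]
    norm_num
  rw [h, one_mul]

theorem Z2 (hZ1 : Z1_stmt) (hLOW : LOW_stmt) (hCSW : CSW_stmt) : Z2_stmt := by
  intro a dl ha hdl
  obtain ⟨D, hD0, hD⟩ := hZ1 a dl ha hdl
  have hne : D * (Polynomial.X - Polynomial.C 1) ≠ 0 := mul_ne_zero hD0 (Polynomial.X_sub_C_ne_zero 1)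
  obtain ⟨s, hs⟩ := Z2_real _ hne
  rw [Polynomial.eval_mul] at hs
  have hs1 := left_ne_zero_of_mul hs
  have hs2 : (s : ℂ) ≠ 1 := by
    have h := right_ne_zero_of_mul hs
    simpa [sub_ne_zero] using h
  have hind := hD _ hs1
  obtain ⟨D2, hD20, hD2⟩ := sigma_stage (p := pT ℂ a) (g := gT (s : ℂ) (1 + 2 * (s : ℂ)))
    (h := fun i t => den ℂ a * hh ℂ a dl i t) (hLOW ℂ a (by omega)).1 0 dl (by simpa using hind)
  have hp : ∀ τ : ℂ, pσ (pT ℂ a) τ = pT ℂ a := by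
    intro τ
    funext i
    rw [pσ, (hCSW.1 a).1, fin2_add, Z2_mix]
  obtain ⟨E, hE⟩ : ∃ E : ℂ → ℂ, E = fun τ => ((s : ℂ) + (1 + 2 * (s : ℂ))) / 2 +
    τ * (((s : ℂ) - (1 + 2 * (s : ℂ))) / (2 * Complex.I)) := ⟨_, rfl⟩
  have hg : ∀ t : ℝ, gσ (gT (s : ℂ) (1 + 2 * (s : ℂ))) (t : ℂ) =
      gT (E t) (starRingEnd ℂ (E t)) := by
    intro t
    funext i
    have hc : starRingEnd ℂ (1 + 2 * (s : ℂ)) = 1 + 2 * (s : ℂ) := by
      rw [map_add, map_one, map_mul, map_ofNat, Complex.conj_ofReal]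
    have hE2 : starRingEnd ℂ (E t) = ((1 + 2 * (s : ℂ)) + (s : ℂ)) / 2 +
        t * (((1 + 2 * (s : ℂ)) - (s : ℂ)) / (2 * Complex.I)) := by
      rw [hE]
      simp only [map_add, map_mul, map_div₀, map_sub, map_one, map_ofNat, Complex.conj_ofReal,
        Complex.conj_I]
      rw [mul_neg, div_neg]
      ring
    fin_cases i
    · change miyS (t : ℂ) (gT (s : ℂ) (1 + 2 * (s : ℂ)) 0)
        (cP (gT (s : ℂ) (1 + 2 * (s : ℂ)) (0 + 1))) = gT (E t) (starRingEnd ℂ (E t)) 0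
      have e1 : gT (s : ℂ) (1 + 2 * (s : ℂ)) 0 = gq (s : ℂ) := rfl
      have e2 : gT (s : ℂ) (1 + 2 * (s : ℂ)) (0 + 1) = gq (1 + 2 * (s : ℂ)) := rfl
      have e3 : gT (E t) (starRingEnd ℂ (E t)) 0 = gq (E t) := rfl
      rw [e1, e2, e3, Z2_cP, hc, Z2_miy, hE]
    · change miyS (t : ℂ) (gT (s : ℂ) (1 + 2 * (s : ℂ)) 1)
        (cP (gT (s : ℂ) (1 + 2 * (s : ℂ)) (1 + 1))) = gT (E t) (starRingEnd ℂ (E t)) 1
      have e1 : gT (s : ℂ) (1 + 2 * (s : ℂ)) 1 = gq (1 + 2 * (s : ℂ)) := rfl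
      have e2 : gT (s : ℂ) (1 + 2 * (s : ℂ)) (1 + 1) = gq (s : ℂ) := rfl
      have e3 : gT (E t) (starRingEnd ℂ (E t)) 1 = gq (starRingEnd ℂ (E t)) := rfl
      rw [e1, e2, e3, Z2_cP, Complex.conj_ofReal, Z2_miy, hE2]
  have hP2 : D2 * (Polynomial.C (((s : ℂ) + (1 + 2 * (s : ℂ))) / 2) + Polynomial.X *
      Polynomial.C (((s : ℂ) - (1 + 2 * (s : ℂ))) / (2 * Complex.I)) - Polynomial.C 1) ≠ 0 := by
    refine mul_ne_zero hD20 ?_
    intro h0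
    have h1 := congrArg (Polynomial.eval Complex.I) h0
    rw [Polynomial.eval_sub, Polynomial.eval_add, Polynomial.eval_mul, Polynomial.eval_C,
      Polynomial.eval_C, Polynomial.eval_C, Polynomial.eval_X, Polynomial.eval_zero] at h1
    apply hs2
    have hI := Complex.I_ne_zero
    field_simp at h1
    linear_combination h1 / 2
  obtain ⟨t, ht⟩ := Z2_real _ hP2
  rw [Polynomial.eval_mul] at ht
  have ht1 := left_ne_zero_of_mul ht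
  have ht2 := right_ne_zero_of_mul ht
  refine ⟨E t, ?_, t, ?_⟩
  · intro h1
    apply ht2
    rw [Polynomial.eval_sub, Polynomial.eval_add, Polynomial.eval_mul, Polynomial.eval_C,
      Polynomial.eval_C, Polynomial.eval_C, Polynomial.eval_X]
    rw [hE] at h1
    rw [sub_eq_zero]
    exact h1
  · have h1 := hD2 (t : ℂ) ht1
    rw [hp, hg] at h1
    simpa using h1

end Pool.Agent.LK
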